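import Pool.Agent.BDD44.Core

set_option autoImplicit false

open Filter Topology Pool.Agent.BDD44

namespace Pool.Agent.Results.MP_bdd059_nt.GenericTuples

/-- The degree `[ℚ(γ₁, …, γ_m) : ℚ]` (for a tuple of algebraic numbers). -/
noncomputable def deg {m : ℕ} (γ : Fin m → ℂ) : ℝ :=
  ((Module.finrank ℚ (IntermediateField.adjoin ℚ (Set.range γ)) : ℕ) : ℝ)

/-- The absolute logarithmic Weil height `h(z) = log M(z) / deg z` of an algebraic number `z`:
the least positive integer `n` for which `n` times the monic minimal polynomial is integral is the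
leading coefficient `a₀` of the primitive integral minimal polynomial. -/
noncomputable def ht (z : ℂ) : ℝ :=
  (Real.log ((sInf {n : ℕ | 0 < n ∧ ∀ i : ℕ, ∃ w : ℤ,
        (n : ℚ) * (minpoly ℚ z).coeff i = (w : ℚ)} : ℕ) : ℝ) +
    (Multiset.map (fun w : ℂ => Real.log (max 1 ‖w‖))
      ((minpoly ℚ z).map (algebraMap ℚ ℂ)).roots).sum) /
    ((minpoly ℚ z).natDegree : ℝ)

/-- The condition on `(D_ν)` and `(μ_ν)` in Q1. -/
def Admissible (c₁ : ℝ) (D μ : ℕ → ℝ) : Prop :=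
  (∀ ν, c₁ ≤ D ν ∧ D ν ≤ μ ν ∧ D ν ≤ D (ν + 1) ∧ D (ν + 1) ≤ 2 * D ν ∧
        μ ν ≤ μ (ν + 1) ∧ μ (ν + 1) ≤ 2 * μ ν) ∧
  ¬ BddAbove (Set.range μ)

/-- The conclusion of Q1 for the tuple `θ` with the constants `c₁`, `c₂` and `D_ν ^ s` in place of
`D_ν ^ (1/t)`, `t` the transcendence degree of `ℚ(θ)`. -/
def Approximable {m : ℕ} (θ : Fin m → ℂ) (s c₁ c₂ : ℝ) : Prop :=
  ∀ D μ : ℕ → ℝ, Admissible c₁ D μ → ∀ N : ℕ, ∃ ν : ℕ, N ≤ ν ∧ ∃ γ : Fin m → ℂ,
    (∀ j, IsAlgebraic ℚ (γ j)) ∧ deg γ ≤ D ν ∧ (∀ j, deg γ * ht (γ j) ≤ μ ν) ∧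
    (∀ i, ‖θ i - γ i‖ ≤ Real.exp (-(c₂ * D ν ^ s * μ ν)))

/-- From arbitrarily late scales `M` to late indices `ν`. -/
theorem scale {c₁ : ℝ} {D μ : ℕ → ℝ} (h : Admissible c₁ D μ) (N : ℕ) {M : ℝ} (hM : μ N < M) :
    ∃ ν, N ≤ ν ∧ M ≤ μ ν ∧ μ ν < 2 * M := by
  obtain ⟨h1, h2⟩ := h
  have hmono : Monotone μ := monotone_nat_of_le_succ (fun n => (h1 n).2.2.2.2.1)
  have hex : ∃ ν, M ≤ μ ν := by
    by_contra hcon
    push Not at hcon
    exact h2 ⟨M, by rintro _ ⟨ν, rfl⟩; exact (hcon ν).le⟩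
  classical
  have hfind := Nat.find_spec hex
  set ν := Nat.find hex with hν
  have hNν : N < ν := by
    by_contra hcon
    push Not at hcon
    have := hmono hcon
    linarith
  refine ⟨ν, hNν.le, hfind, ?_⟩
  have hpos : 1 ≤ ν := by omega
  have hlt : ν - 1 < ν := by omega
  have hnot := Nat.find_min hex hlt
  push Not at hnot
  have hstep := (h1 (ν - 1)).2.2.2.2.2
  rw [Nat.sub_add_cancel hpos] at hstep
  linarith

/-- Approximations of bounded degree of quality `exp (-M³)` at arbitrarily late scales. -/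
theorem of_fast {m : ℕ} (θ : Fin m → ℂ) (c₁ : ℝ) (hc : 0 < c₁)
    (h : ∀ N : ℕ, ∃ M : ℝ, (N : ℝ) ≤ M ∧ ∃ γ : Fin m → ℂ, (∀ j, IsAlgebraic ℚ (γ j)) ∧
      deg γ ≤ c₁ ∧ (∀ j, deg γ * ht (γ j) ≤ M) ∧ ∀ i, ‖θ i - γ i‖ ≤ Real.exp (-(M ^ 3)))
    (s c₂ : ℝ) (hs0 : 0 ≤ s) (hs1 : s ≤ 1) (hc₂ : 0 < c₂) : Approximable θ s c₁ c₂ := by
  intro D μ hadm N
  obtain ⟨K, hK⟩ := exists_nat_ge (max (max (μ N + 1) 1) (6 * c₂))
  obtain ⟨M, hKM, γ, ha, hdeg, hht, hclose⟩ := h K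
  have hKM' := hK.trans hKM
  have hM1 : μ N < M := by
    have := (le_max_left (μ N + 1) 1).trans ((le_max_left _ _).trans hKM')
    linarith
  have hM0 : 1 ≤ M := (le_max_right (μ N + 1) 1).trans ((le_max_left _ _).trans hKM')
  have hMc : 6 * c₂ ≤ M := (le_max_right _ _).trans hKM'
  obtain ⟨ν, hν1, hν2, hν3⟩ := scale hadm N hM1
  refine ⟨ν, hν1, γ, ha, hdeg.trans (hadm.1 ν).1, fun j => (hht j).trans hν2, fun i => ?_⟩
  refine (hclose i).trans (Real.exp_le_exp.mpr ?_)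
  have hD0 : 0 < D ν := lt_of_lt_of_le hc (hadm.1 ν).1
  have hDM : D ν ≤ 2 * M := (hadm.1 ν).2.1.trans hν3.le
  have e1 : D ν ^ s ≤ 3 * M := by
    rcases le_total (D ν) 1 with h1 | h1
    · have : D ν ^ s ≤ 1 := Real.rpow_le_one hD0.le h1 hs0
      linarith
    · have : D ν ^ s ≤ D ν ^ (1:ℝ) := Real.rpow_le_rpow_of_exponent_le h1 hs1
      rw [Real.rpow_one] at this
      linarith
  have hDs : 0 ≤ D ν ^ s := Real.rpow_nonneg hD0.le _
  have e3 : D ν ^ s * μ ν ≤ (3 * M) * (2 * M) := by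
    apply mul_le_mul e1 hν3.le (by linarith) (by positivity)
  have e4 : c₂ * D ν ^ s * μ ν ≤ M ^ 3 := by
    calc c₂ * D ν ^ s * μ ν = c₂ * (D ν ^ s * μ ν) := by ring
      _ ≤ c₂ * ((3 * M) * (2 * M)) := mul_le_mul_of_nonneg_left e3 hc₂.le
      _ = (6 * c₂) * (M * M) := by ring
      _ ≤ M * (M * M) := mul_le_mul_of_nonneg_right hMc (by positivity)
      _ = M ^ 3 := by ring
  linarith

/-- Good approximations at scale `N` for all root tuples of the monic family `P`. -/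
def Good {k m : ℕ} (P : Fin m → Polynomial (MvPolynomial (Fin k) ℚ))
    (b : Fin m → MvPolynomial (Fin k) ℚ) (N : ℕ) (x : Fin k → ℂ) : Prop :=
  ∀ β : Fin m → ℂ, (∀ j, (spec x (P j)).eval (β j) = 0) →
    ∃ M : ℝ, (N : ℝ) ≤ M ∧ ∃ γ : Fin m → ℂ, (∀ j, IsAlgebraic ℚ (γ j)) ∧
      deg γ ≤ ((2 * ∏ j, (2 * (P j).natDegree) + 1 : ℕ) : ℝ) ∧ (∀ j, deg γ * ht (γ j) ≤ M) ∧
      ∀ j, ‖β j * (MvPolynomial.aeval x (b j))⁻¹ - γ j‖ ≤ Real.exp (-(M ^ 3))

theorem good_near {k m : ℕ} (P : Fin m → Polynomial (MvPolynomial (Fin k) ℚ))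
    (hP : ∀ j, (P j).Monic) (b : Fin m → MvPolynomial (Fin k) ℚ) (N : ℕ) (x₀ : Fin k → ℂ)
    (hx₀ : ∀ i, x₀ i ∈ K0) (hb : ∀ j, MvPolynomial.aeval x₀ (b j) ≠ 0) :
    ∀ᶠ x in 𝓝 x₀, Good P b N x := by
  classical
  let T : Finset (Fin m → ℂ) := Fintype.piFinset (fun j => (spec x₀ (P j)).roots.toFinset)
  let g : (Fin m → ℂ) → (Fin m → ℂ) := fun β₀ j => β₀ j * (MvPolynomial.aeval x₀ (b j))⁻¹
  set M : ℝ := max (N : ℝ) (∑ β₀ ∈ T, ∑ j, |deg (g β₀) * ht (g β₀ j)|) with hM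
  choose R hR hcont using fun j => root_cont x₀ (P j) (hP j)
  have hE : 0 < Real.exp (-(M ^ 3)) / 2 := by positivity
  have hb' : ∀ j, 0 < ‖MvPolynomial.aeval x₀ (b j)‖ := fun j => norm_pos_iff.mpr (hb j)
  have ev1 : ∀ᶠ x in 𝓝 x₀, ∀ j, ∀ β : ℂ, (spec x (P j)).eval β = 0 → ‖β‖ ≤ R j ∧
      ∃ β₀ : ℂ, (spec x₀ (P j)).eval β₀ = 0 ∧
        ‖β - β₀‖ < Real.exp (-(M ^ 3)) / 2 * ‖MvPolynomial.aeval x₀ (b j)‖ :=
    eventually_all.mpr fun j => hcont j _ (mul_pos hE (hb' j))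
  have ev2 : ∀ᶠ x in 𝓝 x₀, ∀ j, R j * ‖(MvPolynomial.aeval x (b j))⁻¹ -
      (MvPolynomial.aeval x₀ (b j))⁻¹‖ < Real.exp (-(M ^ 3)) / 2 := by
    refine eventually_all.mpr fun j => ?_
    have hc : ContinuousAt (fun x => R j * ‖(MvPolynomial.aeval x (b j))⁻¹ -
        (MvPolynomial.aeval x₀ (b j))⁻¹‖) x₀ :=
      continuousAt_const.mul (((cont_aeval (b j)).continuousAt.inv₀ (hb j)).sub
        continuousAt_const).norm
    exact hc.eventually_lt continuousAt_const (by simpa using hE)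
  filter_upwards [ev1, ev2] with x h1 h2 β hβ
  choose hβR β₀ hβ₀ hβc using fun j => h1 j (β j) (hβ j)
  have hT : β₀ ∈ T := by
    rw [Fintype.mem_piFinset]
    intro j
    rw [Multiset.mem_toFinset, Polynomial.mem_roots (spec_monic x₀ (P j) (hP j)).ne_zero]
    exact hβ₀ j
  have hdeg := tuple_deg β₀ (fun j => (MvPolynomial.aeval x₀ (b j))⁻¹)
    (fun j => 2 * (P j).natDegree) (fun j => inv_mem (aeval_mem_K0 x₀ hx₀ (b j)))
    (fun j => root_deg x₀ hx₀ (P j) (hP j) (β₀ j) (hβ₀ j))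
  refine ⟨M, le_max_left _ _, g β₀, hdeg.1, ?_, ?_, ?_⟩
  · have := hdeg.2
    unfold deg
    exact_mod_cast this.trans (Nat.le_succ _)
  · intro j
    refine le_trans ?_ (le_max_right _ _)
    refine (le_abs_self _).trans ?_
    refine (Finset.single_le_sum (f := fun j => |deg (g β₀) * ht (g β₀ j)|)
          (fun i _ => abs_nonneg _) (Finset.mem_univ j)).trans ?_
    exact Finset.single_le_sum (f := fun β₀ => ∑ j, |deg (g β₀) * ht (g β₀ j)|)
          (fun i _ => Finset.sum_nonneg fun j _ => abs_nonneg _) hT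
  · intro j
    have e : β j * (MvPolynomial.aeval x (b j))⁻¹ - g β₀ j =
        β j * ((MvPolynomial.aeval x (b j))⁻¹ - (MvPolynomial.aeval x₀ (b j))⁻¹) +
        (β j - β₀ j) * (MvPolynomial.aeval x₀ (b j))⁻¹ := by
      simp only [g]; ring
    rw [e]
    have e1 : ‖β j * ((MvPolynomial.aeval x (b j))⁻¹ - (MvPolynomial.aeval x₀ (b j))⁻¹)‖ ≤
        Real.exp (-(M ^ 3)) / 2 := by
      rw [norm_mul]
      exact (mul_le_mul_of_nonneg_right (hβR j) (norm_nonneg _)).trans (h2 j).le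
    have e2 : ‖(β j - β₀ j) * (MvPolynomial.aeval x₀ (b j))⁻¹‖ ≤ Real.exp (-(M ^ 3)) / 2 := by
      rw [norm_mul, norm_inv, ← div_eq_mul_inv, div_le_iff₀ (hb' j)]
      exact (hβc j).le
    calc _ ≤ _ := norm_add_le _ _
      _ ≤ Real.exp (-(M ^ 3)) / 2 + Real.exp (-(M ^ 3)) / 2 := add_le_add e1 e2
      _ = _ := by ring

theorem good_residual {k m : ℕ} (P : Fin m → Polynomial (MvPolynomial (Fin k) ℚ))
    (hP : ∀ j, (P j).Monic) (b : Fin m → MvPolynomial (Fin k) ℚ) (hb : ∀ j, b j ≠ 0) (N : ℕ) :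
    ∀ᶠ x in residual (Fin k → ℂ), Good P b N x := by
  have hq : ∏ j, b j ≠ 0 := Finset.prod_ne_zero_iff.mpr fun j _ => hb j
  have hd1 : Dense {x : Fin k → ℂ | ∀ i, x i ∈ K0} := by
    have := dense_pi (Set.univ : Set (Fin k)) (s := fun _ => {z : ℂ | z ∈ K0})
      (fun _ _ => dense_K0)
    refine this.mono ?_
    intro x hx i
    exact hx i (Set.mem_univ i)
  have hopen : IsOpen {x : Fin k → ℂ | MvPolynomial.aeval x (∏ j, b j) ≠ 0} :=
    isOpen_ne_fun (cont_aeval _) continuous_const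
  have hd2 := hd1.inter_of_isOpen_right (dense_ne _ hq) hopen
  have hd3 : Dense (interior {x | Good P b N x}) := by
    refine hd2.mono ?_
    rintro x ⟨hx1, hx2⟩
    rw [mem_interior_iff_mem_nhds]
    refine good_near P hP b N x hx1 fun j hj => hx2 ?_
    rw [map_prod]
    exact Finset.prod_eq_zero (Finset.mem_univ j) hj
  exact mem_of_superset (residual_of_dense_open isOpen_interior hd3) interior_subset

theorem closure_fields (k : ℕ) :
    ∀ᶠ x in residual (Fin k → ℂ), AlgebraicIndependent ℚ x ∧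
      ∀ (m : ℕ) (θ : Fin m → ℂ),
        (∀ j, IsAlgebraic (IntermediateField.adjoin ℚ (Set.range x)) (θ j)) →
        ∃ c₁ : ℝ, 0 < c₁ ∧ ∀ s c₂ : ℝ, 0 ≤ s → s ≤ 1 → 0 < c₂ → Approximable θ s c₁ c₂ := by
  have h1 : ∀ᶠ x in residual (Fin k → ℂ), ∀ q : MvPolynomial (Fin k) ℚ, q ≠ 0 →
      MvPolynomial.aeval x q ≠ 0 := by
    rw [eventually_countable_forall]
    intro q
    by_cases hq : q = 0
    · exact Eventually.of_forall fun x h => absurd hq h
    · have := residual_of_dense_open (isOpen_ne_fun (cont_aeval q) continuous_const)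
        (dense_ne q hq)
      filter_upwards [this] with x hx _
      exact hx
  have h2 : ∀ᶠ x in residual (Fin k → ℂ), ∀ (m : ℕ)
      (P : Fin m → Polynomial (MvPolynomial (Fin k) ℚ)) (b : Fin m → MvPolynomial (Fin k) ℚ)
      (N : ℕ), (∀ j, (P j).Monic) → (∀ j, b j ≠ 0) → Good P b N x := by
    rw [eventually_countable_forall]
    intro m
    rw [eventually_countable_forall]
    intro P
    rw [eventually_countable_forall]
    intro b
    rw [eventually_countable_forall]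
    intro N
    by_cases hP : ∀ j, (P j).Monic
    · by_cases hb : ∀ j, b j ≠ 0
      · filter_upwards [good_residual P hP b hb N] with x hx _ _
        exact hx
      · exact Eventually.of_forall fun x _ h => absurd h hb
    · exact Eventually.of_forall fun x h => absurd h hP
  filter_upwards [h1, h2] with x hx1 hx2
  refine ⟨?_, ?_⟩
  · rw [algebraicIndependent_iff]
    intro p hp
    by_contra h
    exact hx1 p h hp
  · intro m θ hθ
    choose b P hb hP hroot using fun j => lift_root x (θ j) (hθ j)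
    have hb0 : ∀ j, b j ≠ 0 := by
      intro j h
      apply hb j
      rw [h, map_zero]
    refine ⟨((2 * ∏ j, (2 * (P j).natDegree) + 1 : ℕ) : ℝ), by positivity,
      fun s c₂ hs0 hs1 hc₂ => of_fast θ _ (by positivity) (fun N => ?_) s c₂ hs0 hs1 hc₂⟩
    obtain ⟨M, hM, γ, g1, g2, g3, g4⟩ := hx2 m P b N hP hb0
      (fun j => MvPolynomial.aeval x (b j) * θ j) hroot
    refine ⟨M, hM, γ, g1, g2, g3, fun j => ?_⟩
    have e : MvPolynomial.aeval x (b j) * θ j * (MvPolynomial.aeval x (b j))⁻¹ = θ j := by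
      field_simp [hb j]
    have := g4 j
    rw [e] at this
    exact this

/-- **Q1 for generic fields.** For every `k` there is a comeagre set of `x ∈ ℂ^k` such that
`x₁, …, x_k` are algebraically independent and the conclusion of Q1 holds for EVERY tuple
`θ ∈ K^m`, `m` arbitrary, where `K` is the algebraic closure of `ℚ(x₁, …, x_k)` in `ℂ` (so for
tuples of every transcendence degree `t ≤ k`), with exponent `D_ν ^ s` for every `s ∈ [0, 1]`
(in Q1 `s = 1/t`) and every `c₂ > 0`. -/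
theorem result (k : ℕ) :
    ∀ᶠ x in residual (Fin k → ℂ), AlgebraicIndependent ℚ x ∧
      ∀ (m : ℕ) (θ : Fin m → ℂ),
        (∀ j, IsAlgebraic (IntermediateField.adjoin ℚ (Set.range x)) (θ j)) →
        ∃ c₁ : ℝ, 0 < c₁ ∧ ∀ s c₂ : ℝ, 0 ≤ s → s ≤ 1 → 0 < c₂ → Approximable θ s c₁ c₂ :=
  closure_fields k

end Pool.Agent.Results.MP_bdd059_nt.GenericTuples
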